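import Pool.Agent.H.MP_5a3b5e_co.B

set_option autoImplicit false

namespace Pool.Agent.H.MP_5a3b5e_co

open Finset

/-! the chains -/

def cm (a : Fin 6 → Fin 14) (j : Fin 6) : ℕ := ∑ t ∈ univ.filter (j ≤ ·), 2 ^ (a t : ℕ)

def ch (a : Fin 6 → Fin 14) (j : Fin 6) : Setoid (Fin 14) := intv (cm a j)

def AA : Finset (Fin 6 → Fin 14) :=
  univ.filter fun a => Function.Injective a ∧ inW (∑ t, 2 ^ (a t : ℕ)) = true

theorem sum_AA {M : Type} [AddCommMonoid M] (F : (Fin 6 → Fin 14) → M) : ∑ a ∈ AA, F a =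
    ∑ a : Fin 6 → Fin 14,
      if Function.Injective a ∧ inW (∑ t, 2 ^ (a t : ℕ)) = true then F a else 0 :=
  sum_filter _ _

theorem mem_AA {a : Fin 6 → Fin 14} :
    a ∈ AA ↔ Function.Injective a ∧ inW (∑ t, 2 ^ (a t : ℕ)) = true := by
  simp only [AA, mem_filter, mem_univ, true_and]

attribute [local irreducible] AA inW

theorem cm_bit (a : Fin 6 → Fin 14) (ha : Function.Injective a) (j : Fin 6) (x : ℕ) :
    (cm a j).testBit x = true ↔ ∃ t, j ≤ t ∧ (a t : ℕ) = x := by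
  rw [cm, bits_sum a ha]; simp

theorem ch_iff (a : Fin 6 → Fin 14) (ha : Function.Injective a) (j : Fin 6) (x y : Fin 14) :
    ch a j x y ↔ ∀ t, j ≤ t → (a t ≤ x ↔ a t ≤ y) := by
  rw [ch, intv_iff]
  simp only [cm_bit a ha]
  exact ⟨fun h t ht => h _ ⟨t, ht, rfl⟩, fun h c ⟨t, ht, e⟩ => e ▸ h t ht⟩

theorem AA_pos (a : Fin 6 → Fin 14) (ha : a ∈ AA) (t : Fin 6) : 0 < (a t : ℕ) := by
  obtain ⟨h1, h2⟩ := mem_AA.mp ha
  have h3 := (chkW _ ((inW_iff _).mp h2)).1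
  by_contra h
  have := (bits_sum a h1 univ 0).mpr ⟨t, mem_univ _, by omega⟩
  simp [h3] at this

theorem ch_mem (a : Fin 6 → Fin 14) (ha : a ∈ AA) :
    StrictMono (ch a) ∧ ∀ i, ch a i ∈ Proper lam := by
  obtain ⟨h1, h2⟩ := mem_AA.mp ha
  have hp := AA_pos a ha
  have hcut : ∀ j t, j ≤ t → ¬ ch a j ⟨a t - 1, by omega⟩ (a t) := by
    intro j t hjt h
    have := ((ch_iff a h1 j _ _).mp h t hjt).mpr le_rfl
    have := hp t
    simp only [Fin.le_def] at *
    omega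
  refine ⟨fun i j hij => lt_of_le_of_ne ?_ fun h => ?_, fun i => ⟨?_, fun h => ?_, fun h => ?_⟩⟩
  · intro x y hxy
    rw [ch_iff a h1] at hxy ⊢
    exact fun t ht => hxy t (hij.le.trans ht)
  · apply hcut i i le_rfl
    rw [h, ch_iff a h1]
    intro t ht
    have : (a t : ℕ) ≠ a i := fun e => absurd (h1 (Fin.ext e)) (hij.trans_le ht).ne'
    simp only [Fin.le_def]
    omega
  · refine intv_mem _ ((inW_iff _).mp h2) _ fun c hc => ?_
    obtain ⟨t, _, e⟩ := (cm_bit a h1 i c).mp hc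
    exact (bits_sum a h1 univ c).mpr ⟨t, mem_univ _, e⟩
  · obtain ⟨x, hx, h3⟩ := (chkW _ ((inW_iff _).mp h2)).2.1
    have : ch a i ⟨x, by omega⟩ ⟨x + 1, by omega⟩ := by
      rw [ch_iff a h1]
      intro t _
      have : (a t : ℕ) ≠ x + 1 := fun e => by
        have := (bits_sum a h1 univ (x + 1)).mpr ⟨t, mem_univ _, e⟩
        simp [h3] at this
      simp only [Fin.le_def]
      omega
    rw [h] at this
    simp at this
  · apply hcut i i le_rfl
    rw [h]; trivial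

noncomputable def ww : (Fin 6 → Setoid (Fin 14)) →₀ ℤ := ∑ a ∈ AA, Finsupp.single (ch a) 1

theorem ww_mem : ww ∈ Chains (Proper lam) 6 := by
  rw [ww]
  exact Submodule.sum_mem _ fun a ha => Finsupp.single_mem_supported ℤ 1 (ch_mem a ha)

theorem sum_cons {M α : Type} [AddCommMonoid M] [Fintype α] {n : ℕ}
    (G : (Fin (n + 1) → α) → M) : ∑ a, G a = ∑ v, ∑ b : Fin n → α, G (Fin.cons v b) := by
  rw [← (Fin.consEquiv fun _ => α).sum_comp, Fintype.sum_prod_type]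
  rfl

theorem par_zero (m : ℕ) : par m = 0 := by
  by_cases h : ∃ v : Fin 14, m.testBit v = false ∧ inW (2 ^ (v : ℕ) + m) = true
  · obtain ⟨v, h1, h2⟩ := h
    have := chkP _ ((inW_iff _).mp h2) v v.2
    rw [Nat.add_sub_cancel_left] at this
    exact this h1
  · exact sum_eq_zero fun v _ => if_neg fun hv => h ⟨v, hv⟩

theorem face_zero (j : Fin 6) (f : (Fin 5 → Setoid (Fin 14)) → ZMod 2) :
    ∑ a ∈ AA, f (ch a ∘ j.succAbove) = 0 := by
  rcases Fin.eq_zero_or_eq_succ j with rfl | ⟨i, rfl⟩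
  · rw [sum_AA, sum_cons, sum_comm]
    refine sum_eq_zero fun b _ => ?_
    have e : ∀ v : Fin 14, ch (Fin.cons v b) ∘ (0 : Fin 6).succAbove
        = ch (Fin.cons 0 b) ∘ (0 : Fin 6).succAbove := by
      intro v
      funext i
      simp only [Function.comp, ch, cm, Fin.succAbove_zero]
      congr 1
      refine sum_congr rfl fun t ht => ?_
      rcases Fin.eq_zero_or_eq_succ t with rfl | ⟨t, rfl⟩
      · exact absurd (mem_filter.mp ht).2 (Fin.succ_pos i).not_ge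
      · simp only [Fin.cons_succ]
    simp only [e]
    generalize f (ch (Fin.cons 0 b) ∘ (0 : Fin 6).succAbove) = z
    by_cases hb : Function.Injective b
    · have h1 : z * par (∑ t, 2 ^ (b t : ℕ)) = 0 := by rw [par_zero, mul_zero]
      rw [par, mul_sum] at h1
      refine Eq.trans (sum_congr rfl fun v _ => ?_) h1
      rw [mul_ite, mul_one, mul_zero]
      refine if_congr ?_ rfl rfl
      rw [Fin.cons_injective_iff, Fin.sum_univ_succ, ← Bool.not_eq_true, bits_sum b hb]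
      simp only [Fin.cons_zero, Fin.cons_succ, hb, and_true, Set.mem_range, mem_univ, true_and,
        Fin.val_inj]
    · exact sum_eq_zero fun v _ => if_neg fun h => hb (Fin.cons_injective_iff.mp h.1).2
  · let s := Equiv.swap i.castSucc i.succ
    have hs : ∀ k : Fin 5, ∀ t, i.succ.succAbove k ≤ s t ↔ i.succ.succAbove k ≤ t := by
      revert i; decide
    refine sum_involution (fun a _ => a ∘ s) (fun a _ => ?_) (fun a ha _ h => ?_)
      (fun a ha => ?_) (fun a _ => ?_)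
    · have : ch (a ∘ s) ∘ i.succ.succAbove = ch a ∘ i.succ.succAbove := by
        funext k
        simp only [Function.comp, ch, cm, sum_filter]
        congr 1
        rw [← Equiv.sum_comp s fun t => if i.succ.succAbove k ≤ t then 2 ^ (a t : ℕ) else 0]
        simp only [hs]
      rw [this, CharTwo.add_self_eq_zero]
    · have := (mem_AA.mp ha).1 (congrFun h i.succ)
      simp only [s, Equiv.swap_apply_right] at this
      exact absurd this Fin.castSucc_lt_succ.ne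
    · obtain ⟨h1, h2⟩ := mem_AA.mp ha
      refine mem_AA.mpr ⟨h1.comp s.injective, ?_⟩
      rw [← Equiv.sum_comp s fun t => 2 ^ (a t : ℕ)] at h2
      exact h2
    · funext t
      simp [s]

theorem even_gen {X ι : Type} (A : Finset ι) (g : ι → Fin 6 → X)
    (h : ∀ (j : Fin 6) (f : (Fin 5 → X) → ZMod 2), ∑ a ∈ A, f (g a ∘ j.succAbove) = 0)
    (w : (Fin 6 → X) →₀ ℤ) (hw : w = ∑ a ∈ A, Finsupp.single (g a) 1)
    (c : Fin 5 → X) : (2 : ℤ) ∣ bd X 5 w c := by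
  have : ((bd X 5 w c : ℤ) : ZMod 2) = ∑ j : Fin 6, ∑ a ∈ A,
      ((((-1 : ℤ) ^ (j : ℕ) •
      Finsupp.single (g a ∘ j.succAbove) (1 : ℤ) : _ →₀ ℤ) c : ℤ) : ZMod 2) := by
    rw [sum_comm, hw, map_sum, Finsupp.finsetSum_apply, Int.cast_sum]
    refine sum_congr rfl fun a _ => ?_
    rw [bd_single, Finsupp.finsetSum_apply, Int.cast_sum]
  refine (ZMod.intCast_zmod_eq_zero_iff_dvd _ 2).mp (this.trans (sum_eq_zero fun j _ => ?_))
  exact h j fun d => ((((-1 : ℤ) ^ (j : ℕ) •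
      Finsupp.single d (1 : ℤ) : _ →₀ ℤ) c : ℤ) : ZMod 2)

theorem ww_even (c : Fin 5 → Setoid (Fin 14)) : (2 : ℤ) ∣ bd _ 5 ww c :=
  even_gen AA ch face_zero ww ww.eq_1 c

/-! the cocycle -/

noncomputable def gg (p : Setoid (Fin 14)) : ℕ := #(blk p 0)

noncomputable def Phi : ((Fin 5 → Setoid (Fin 14)) →₀ ℤ) →ₗ[ℤ] ℤ :=
  Finsupp.linearCombination ℤ fun c =>
    ph (gg (c 0)) (gg (c 1)) (gg (c 2)) (gg (c 3)) (gg (c 4))

theorem Phi_bd (c : Fin 6 → Setoid (Fin 14)) : Phi (bd _ 5 (Finsupp.single c 1)) =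
    DD (gg (c 0)) (gg (c 1)) (gg (c 2)) (gg (c 3)) (gg (c 4)) (gg (c 5)) := by
  have key : ∀ x0 x1 x2 x3 x4 x5 : ℤ, (-1) ^ 0 * (1 * x0) + (-1) ^ 1 * (1 * x1)
      + (-1) ^ 2 * (1 * x2) + (-1) ^ 3 * (1 * x3) + (-1) ^ 4 * (1 * x4) + (-1) ^ 5 * (1 * x5)
      = x0 - x1 + x2 - x3 + x4 - x5 := by intros; ring
  rw [bd_single, map_sum]
  simp only [map_smul, Phi, Finsupp.linearCombination_single, smul_eq_mul]
  exact (Fin.sum_univ_six _).trans (key _ _ _ _ _ _)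

theorem DD_deg (a b c d e f : ℕ) (h : a = b ∨ b = c ∨ c = d ∨ d = e ∨ e = f) :
    DD a b c d e f = 0 := by
  rcases h with rfl | rfl | rfl | rfl | rfl <;> simp [DD, ph]

theorem blk_mono {p q : Setoid (Fin 14)} (h : p ≤ q) : blk p 0 ⊆ blk q 0 := by
  intro y hy
  simp only [blk, mem_filter, mem_univ, true_and] at hy ⊢
  exact h hy

theorem diffs' (r : Setoid (Fin 14)) (hr : shape r = lamM) (B : Fin 6 → Finset (Fin 14))
    (s0 : ∅ ⊂ B 0) (s1 : B 0 ⊂ B 1) (s2 : B 1 ⊂ B 2) (s3 : B 2 ⊂ B 3) (s4 : B 3 ⊂ B 4)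
    (s5 : B 4 ⊂ B 5) (s6 : B 5 ⊂ univ) (hcl : ∀ i x y, r x y → x ∈ B i → y ∈ B i) :
    ({#(B 0), #(B 1) - #(B 0), #(B 2) - #(B 1), #(B 3) - #(B 2), #(B 4) - #(B 3),
      #(B 5) - #(B 4), 14 - #(B 5)} : Multiset ℕ) = lamM :=
  diffs r hr ![∅, B 0, B 1, B 2, B 3, B 4, B 5, univ] (by
      rw [Fin.strictMono_iff_lt_succ]
      intro i; fin_cases i
      exacts [s0, s1, s2, s3, s4, s5, s6]) (by
      intro i x y hxy; fin_cases i
      exacts [fun h => absurd h (notMem_empty _), hcl 0 x y hxy, hcl 1 x y hxy, hcl 2 x y hxy,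
        hcl 3 x y hxy, hcl 4 x y hxy, hcl 5 x y hxy, fun _ => mem_univ _])

theorem DD_even (c : Fin 6 → Setoid (Fin 14)) (h1 : StrictMono c) (h2 : ∀ i, c i ∈ Proper lam) :
    DD (gg (c 0)) (gg (c 1)) (gg (c 2)) (gg (c 3)) (gg (c 4)) (gg (c 5)) % 2 = 0 := by
  by_cases hd : gg (c 0) = gg (c 1) ∨ gg (c 1) = gg (c 2) ∨ gg (c 2) = gg (c 3) ∨
      gg (c 3) = gg (c 4) ∨ gg (c 4) = gg (c 5)
  · rw [DD_deg _ _ _ _ _ _ hd]; rfl
  push Not at hd
  have hs : ∀ i j, i < j → gg (c i) ≠ gg (c j) → blk (c i) 0 ⊂ blk (c j) 0 := fun i j hij h =>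
    Finset.ssubset_iff_subset_ne.mpr ⟨blk_mono (h1 hij).le, fun e => h (by rw [gg, e, gg])⟩
  have s0 : ∅ ⊂ blk (c 0) 0 := empty_ssubset.mpr ⟨0, by simp [blk]⟩
  have s1 := hs 0 1 (by decide) hd.1
  have s2 := hs 1 2 (by decide) hd.2.1
  have s3 := hs 2 3 (by decide) hd.2.2.1
  have s4 := hs 3 4 (by decide) hd.2.2.2.1
  have s5 := hs 4 5 (by decide) hd.2.2.2.2
  have s6 : blk (c 5) 0 ⊂ univ := by
    refine ssubset_univ_iff.mpr fun h => (h2 5).2.2 (Setoid.eq_top_iff.mpr fun x y => ?_)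
    have : ∀ y, c 5 0 y := fun y => by simpa [blk] using eq_univ_iff_forall.mp h y
    exact (c 5).trans' ((c 5).symm' (this x)) (this y)
  obtain ⟨⟨S, hS, e⟩, hb, _⟩ := h2 0
  obtain ⟨r, hr⟩ : S.Nonempty := by
    rw [Set.nonempty_iff_ne_empty]; rintro rfl; exact hb (by simpa using e)
  have hle : ∀ i, r ≤ c i := fun i => (e ▸ le_sSup hr : r ≤ c 0).trans (h1.monotone (Fin.zero_le i))
  have hcl : ∀ i x y, r x y → x ∈ blk (c i) 0 → y ∈ blk (c i) 0 := by
    intro i x y hxy hx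
    simp only [blk, mem_filter, mem_univ, true_and] at hx ⊢
    exact (c i).trans' hx (hle i hxy)
  have := diffs' r (hS r hr) (fun i => blk (c i) 0) s0 s1 s2 s3 s4 s5 s6 hcl
  have h := chkD _ (by simpa using card_lt_card s6) _ (card_lt_card s5) _ (card_lt_card s4) _
    (card_lt_card s3) _ (card_lt_card s2) _ (card_lt_card s1)
  simp only [okD, Bool.or_eq_true, decide_eq_true_eq] at h
  exact h.resolve_right fun h => h this

theorem Phi_even (u : (Fin 6 → Setoid (Fin 14)) →₀ ℤ) (hu : u ∈ Chains (Proper lam) 6) :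
    (2 : ℤ) ∣ Phi (bd _ 5 u) := by
  rw [Chains, Finsupp.supported_eq_span_single] at hu
  refine Submodule.span_induction (fun x hx => ?_) (by simp) (fun x y _ _ hx hy => ?_)
    (fun a x _ hx => ?_) hu
  · obtain ⟨c, hc, rfl⟩ := hx
    rw [Phi_bd]
    exact Int.dvd_of_emod_eq_zero (DD_even c hc.1 hc.2)
  · rw [map_add, map_add]; exact dvd_add hx hy
  · rw [map_smul, map_smul]; exact hx.mul_left a

theorem DD_ch (a : Fin 6 → Fin 14) (ha : a ∈ AA) :
    DD (gg (ch a 0)) (gg (ch a 1)) (gg (ch a 2)) (gg (ch a 3)) (gg (ch a 4)) (gg (ch a 5)) =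
      if ∀ i : Fin 5, a i.castSucc < a i.succ then DD (a 0) (a 1) (a 2) (a 3) (a 4) (a 5)
      else 0 := by
  obtain ⟨h1, -⟩ := mem_AA.mp ha
  have hp := AA_pos a ha
  have hb : ∀ j y, y ∈ blk (ch a j) 0 ↔ ∀ t, j ≤ t → y < a t := by
    intro j y
    simp only [blk, mem_filter, mem_univ, true_and, ch_iff a h1]
    refine forall₂_congr fun t _ => ?_
    have := hp t
    simp only [Fin.le_def, Fin.lt_def, Fin.val_zero]
    omega
  split_ifs with h
  · have hm := Fin.strictMono_iff_lt_succ.mpr h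
    have : ∀ j, gg (ch a j) = a j := by
      intro j
      rw [gg, ← Fin.card_Iio]
      congr 1
      ext y
      rw [hb, mem_Iio]
      exact ⟨fun h => h j le_rfl, fun h t ht => h.trans_le (hm.monotone ht)⟩
    simp only [this]
  · push Not at h
    obtain ⟨i, hi⟩ := h
    have : gg (ch a i.castSucc) = gg (ch a i.succ) := by
      rw [gg, gg]
      congr 1
      ext y
      rw [hb, hb]
      refine ⟨fun h t ht => h t (Fin.castSucc_lt_succ.le.trans ht), fun h t ht => ?_⟩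
      rcases ht.eq_or_lt with rfl | ht
      · exact (h _ le_rfl).trans_le hi
      · exact h t (Fin.castSucc_lt_iff_succ_le.mp ht)
    apply DD_deg
    fin_cases i
    exacts [Or.inl this, Or.inr (Or.inl this), Or.inr (Or.inr (Or.inl this)),
      Or.inr (Or.inr (Or.inr (Or.inl this))), Or.inr (Or.inr (Or.inr (Or.inr this)))]

theorem sum6 {α : Type} [Fintype α] [LinearOrder α] (H : α → α → α → α → α → α → ℤ) :
    (∑ a : Fin 6 → α, if a 0 < a 1 then if a 1 < a 2 then if a 2 < a 3 then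
      if a 3 < a 4 then if a 4 < a 5 then H (a 0) (a 1) (a 2) (a 3) (a 4) (a 5)
      else 0 else 0 else 0 else 0 else 0) =
    ∑ a, ∑ b, if a < b then ∑ c, if b < c then ∑ d, if c < d then ∑ e, if d < e then
      ∑ f, if e < f then H a b c d e f else 0 else 0 else 0 else 0 else 0 := by
  have : ∀ G : α → α → α → α → α → α → ℤ,
      ∑ a : Fin 6 → α, G (a 0) (a 1) (a 2) (a 3) (a 4) (a 5)
        = ∑ a, ∑ b, ∑ c, ∑ d, ∑ e, ∑ f, G a b c d e f := by
    intro G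
    iterate 6 (rw [sum_cons]; refine sum_congr rfl fun _ _ => ?_)
    rw [Fintype.sum_unique]
    rfl
  rw [this fun a b c d e f => if a < b then if b < c then if c < d then if d < e then
    if e < f then H a b c d e f else 0 else 0 else 0 else 0 else 0]
  simp only [sum_ite_irrel, sum_const_zero]

theorem Phi_ww : Phi (bd _ 5 ww) = -2 := by
  rw [ww, map_sum, map_sum, sum_congr rfl fun a ha => (Phi_bd _).trans (DD_ch a ha), ← chkS,
    sum_AA]
  have e : ∀ a : Fin 6 → Fin 14,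
      (if Function.Injective a ∧ inW (∑ t, 2 ^ (a t : ℕ)) = true then
        (if ∀ i : Fin 5, a i.castSucc < a i.succ then DD (a 0) (a 1) (a 2) (a 3) (a 4) (a 5)
        else 0) else 0) = if a 0 < a 1 then if a 1 < a 2 then if a 2 < a 3 then
          if a 3 < a 4 then if a 4 < a 5 then
          (if inW (2 ^ (a 0 : ℕ) + (2 ^ (a 1 : ℕ) + (2 ^ (a 2 : ℕ) + (2 ^ (a 3 : ℕ) +
            (2 ^ (a 4 : ℕ) + 2 ^ (a 5 : ℕ)))))) = true then
            DD (a 0) (a 1) (a 2) (a 3) (a 4) (a 5) else 0)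
          else 0 else 0 else 0 else 0 else 0 := by
    intro a
    have h1 : (∀ i : Fin 5, a i.castSucc < a i.succ) ↔
        a 0 < a 1 ∧ a 1 < a 2 ∧ a 2 < a 3 ∧ a 3 < a 4 ∧ a 4 < a 5 := by
      simp only [Fin.forall_fin_succ, IsEmpty.forall_iff, and_true]; rfl
    have h2 : ∑ t, 2 ^ (a t : ℕ) = 2 ^ (a 0 : ℕ) + (2 ^ (a 1 : ℕ) + (2 ^ (a 2 : ℕ) +
        (2 ^ (a 3 : ℕ) + (2 ^ (a 4 : ℕ) + 2 ^ (a 5 : ℕ))))) := by
      simp only [Fin.sum_univ_succ, univ_unique, sum_singleton]; rfl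
    simp only [← ite_and, ← h2, ← and_assoc]
    refine if_congr ?_ rfl rfl
    simp only [and_assoc, h1]
    refine ⟨fun ⟨_, h, h'⟩ => ⟨h'.1, h'.2.1, h'.2.2.1, h'.2.2.2.1, h'.2.2.2.2, h⟩,
      fun ⟨b0, b1, b2, b3, b4, h⟩ => ⟨?_, h, b0, b1, b2, b3, b4⟩⟩
    exact (Fin.strictMono_iff_lt_succ.mpr (h1.mpr ⟨b0, b1, b2, b3, b4⟩)).injective
  rw [sum_congr rfl fun a _ => e a]
  exact sum6 fun a b c d e f : Fin 14 => if inW (2 ^ (a : ℕ) + (2 ^ (b : ℕ) + (2 ^ (c : ℕ) +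
    (2 ^ (d : ℕ) + (2 ^ (e : ℕ) + 2 ^ (f : ℕ)))))) = true then DD a b c d e f else 0

theorem gen {X : Type} [PartialOrder X] (P : Set X) (w : (Fin 6 → X) →₀ ℤ)
    (hw : w ∈ Chains P 6) (he : ∀ c, (2 : ℤ) ∣ bd X 5 w c) (F : ((Fin 5 → X) →₀ ℤ) →ₗ[ℤ] ℤ)
    (hF : ∀ u ∈ Chains P 6, (2 : ℤ) ∣ F (bd X 5 u)) (h : F (bd X 5 w) = -2) :
    ∃ x : Hom P 4, x ≠ 0 ∧ 2 • x = 0 := by
  let z : (Fin 5 → X) →₀ ℤ := (bd X 5 w).mapRange (· / 2) (by simp)
  have hz : (2 : ℤ) • z = bd X 5 w := by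
    ext c
    simp only [z, Finsupp.smul_apply, Finsupp.mapRange_apply, smul_eq_mul]
    exact Int.mul_ediv_cancel' (he c)
  have hc : z ∈ Cyc P 4 := by
    refine ⟨?_, ?_⟩
    · exact (Finset.coe_subset.mpr Finsupp.support_mapRange).trans (bd_mem P 5 w hw)
    · have := bd_bd w
      rw [← hz, map_smul] at this
      exact (smul_eq_zero.mp this).resolve_left two_ne_zero
  refine ⟨Submodule.Quotient.mk ⟨z, hc⟩, fun h0 => ?_, ?_⟩
  · obtain ⟨u, hu, e⟩ := (Submodule.Quotient.mk_eq_zero _).mp h0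
    have h1 := hF u hu
    rw [← hz, map_smul, smul_eq_mul] at h
    have e' : bd X 5 u = z := e
    rw [e'] at h1
    omega
  · rw [← Submodule.Quotient.mk_smul, Submodule.Quotient.mk_eq_zero]
    refine ⟨w, hw, ?_⟩
    rw [← hz]
    simp [two_smul]

end Pool.Agent.H.MP_5a3b5e_co
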