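import Pool.Agent.H.MP_5a3b5e_co.A

set_option autoImplicit false

namespace Pool.Agent.H.MP_5a3b5e_co

open Finset

open Classical in
/-- the block of `x` in the set partition `s` -/
noncomputable def blk {n : ℕ} (s : Setoid (Fin n)) (x : Fin n) : Finset (Fin n) :=
  univ.filter fun y => s x y

/-- the multiset of block sizes of a set partition -/
noncomputable def shape {n : ℕ} (s : Setoid (Fin n)) : Multiset ℕ :=
  (univ.image (blk s)).val.map Finset.card

/-- all joins of set partitions of shape `lam` (the empty join is the discrete partition) -/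
def PiL {n : ℕ} (lam : Nat.Partition n) : Set (Setoid (Fin n)) :=
  {p | ∃ S : Set (Setoid (Fin n)), (∀ s ∈ S, shape s = lam.parts) ∧ p = sSup S}

/-- the proper part: remove the discrete partition and the one-block partition -/
def Proper {n : ℕ} (lam : Nat.Partition n) : Set (Setoid (Fin n)) :=
  {p | p ∈ PiL lam ∧ p ≠ ⊥ ∧ p ≠ ⊤}

section
variable {X : Type} [PartialOrder X]

/-- integral chains of the order complex of `P` on `k`-element chains `c 0 < ... < c (k-1)` -/
def Chains (P : Set X) (k : ℕ) : Submodule ℤ ((Fin k → X) →₀ ℤ) :=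
  Finsupp.supported ℤ ℤ {c | StrictMono c ∧ ∀ i, c i ∈ P}

/-- simplicial boundary: alternating sum of the chains with one element removed -/
noncomputable def bd (X : Type) (k : ℕ) : ((Fin (k + 1) → X) →₀ ℤ) →ₗ[ℤ] ((Fin k → X) →₀ ℤ) :=
  Finsupp.linearCombination ℤ fun c =>
    ∑ j : Fin (k + 1), (-1 : ℤ) ^ (j : ℕ) • Finsupp.single (c ∘ j.succAbove) (1 : ℤ)

/-- `i`-cycles of the augmented chain complex -/
noncomputable def Cyc (P : Set X) (i : ℕ) : Submodule ℤ ((Fin (i + 1) → X) →₀ ℤ) :=
  Chains P (i + 1) ⊓ LinearMap.ker (bd X i)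

/-- `i`-boundaries -/
noncomputable def Bdy (P : Set X) (i : ℕ) : Submodule ℤ ((Fin (i + 1) → X) →₀ ℤ) :=
  (Chains P (i + 2)).map (bd X (i + 1))

/-- reduced integral homology of the order complex of `P` in degree `i` -/
abbrev Hom (P : Set X) (i : ℕ) : Type :=
  Cyc P i ⧸ (Bdy P i).submoduleOf (Cyc P i)

omit [PartialOrder X] in
theorem bd_single (k : ℕ) (c : Fin (k + 1) → X) : bd X k (Finsupp.single c 1) =
    ∑ j : Fin (k + 1), (-1 : ℤ) ^ (j : ℕ) • Finsupp.single (c ∘ j.succAbove) (1 : ℤ) := by
  simp [bd]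

theorem bd_mem (P : Set X) (k : ℕ) (u : (Fin (k + 1) → X) →₀ ℤ) (hu : u ∈ Chains P (k + 1)) :
    bd X k u ∈ Chains P k := by
  rw [Chains, Finsupp.supported_eq_span_single] at hu
  refine Submodule.span_induction (fun x hx => ?_) (by simp) (fun x y _ _ hx hy => ?_)
    (fun a x _ hx => ?_) hu
  · obtain ⟨c, hc, rfl⟩ := hx
    rw [bd_single]
    refine Submodule.sum_mem _ fun j _ => Submodule.smul_mem _ _ ?_
    exact Finsupp.single_mem_supported ℤ 1
      ⟨hc.1.comp (Fin.strictMono_succAbove j), fun i => hc.2 _⟩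
  · rw [map_add]; exact Submodule.add_mem _ hx hy
  · rw [map_smul]; exact Submodule.smul_mem _ _ hx

omit [PartialOrder X] in
theorem bd_bd (u : (Fin 6 → X) →₀ ℤ) : bd X 4 (bd X 5 u) = 0 := by
  have key : ∀ c : Fin 6 → X, bd X 4 (bd X 5 (Finsupp.single c 1)) = 0 := by
    intro c
    have e : bd X 4 (bd X 5 (Finsupp.single c 1)) = ∑ p : Fin 6 × Fin 5,
        (-1 : ℤ) ^ ((p.1 : ℕ) + p.2) •
          Finsupp.single (c ∘ (p.1.succAbove ∘ p.2.succAbove)) (1 : ℤ) := by
      simp only [bd, Finsupp.linearCombination_single, map_sum, map_smul,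
        Fintype.sum_prod_type, smul_sum, smul_smul, pow_add]
      rfl
    rw [e]
    have h1 : ∀ p : Fin 6 × Fin 5, (p.1.succAbove p.2).succAbove ∘ (p.2.predAbove p.1).succAbove
        = p.1.succAbove ∘ p.2.succAbove := by decide
    have h2 : ∀ p : Fin 6 × Fin 5, (-1 : ℤ) ^ ((p.1 : ℕ) + p.2)
        + (-1) ^ (((p.1.succAbove p.2 : Fin 6) : ℕ) + (p.2.predAbove p.1 : Fin 5)) = 0 := by decide
    have h3 : ∀ p : Fin 6 × Fin 5, (p.1.succAbove p.2, p.2.predAbove p.1) ≠ p := by decide
    refine Finset.sum_involution (fun p _ => (p.1.succAbove p.2, p.2.predAbove p.1)) ?_ ?_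
      (fun _ _ => mem_univ _) ?_
    · intro p _
      simp only [h1 p, ← add_smul, h2 p, zero_smul]
    · exact fun p _ _ => h3 p
    · intro p _; revert p; decide
  induction u using Finsupp.induction_linear with
  | zero => simp
  | add f g hf hg => simp [hf, hg]
  | single c a => rw [← Finsupp.smul_single_one, map_smul, map_smul, key, smul_zero]

end

/-! interval partitions -/

def intv (m : ℕ) : Setoid (Fin 14) := Setoid.ker fun x : Fin 14 => m % 2 ^ ((x : ℕ) + 1)

theorem intv_iff (m : ℕ) (x y : Fin 14) :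
    intv m x y ↔ ∀ c, m.testBit c = true → (c ≤ (x : ℕ) ↔ c ≤ (y : ℕ)) := by
  rw [intv, Setoid.ker_def]
  constructor
  · intro h c hc
    have := congrArg (fun z => Nat.testBit z c) h
    simp only [Nat.testBit_mod_two_pow, hc, Bool.and_true, decide_eq_decide] at this
    omega
  · intro h
    refine Nat.eq_of_testBit_eq fun c => ?_
    simp only [Nat.testBit_mod_two_pow]
    cases hc : m.testBit c
    · simp
    · have := h c hc
      simp only [Bool.and_true, decide_eq_decide]
      omega

theorem intv_le {m m' : ℕ} (h : ∀ c, m.testBit c = true → m'.testBit c = true) :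
    intv m' ≤ intv m := by
  intro x y hxy
  rw [intv_iff] at hxy ⊢
  exact fun c hc => hxy c (h c hc)

theorem shape_ker (f : Fin 14 → ℕ) : shape (Setoid.ker f) =
    (univ.image f).val.map fun b => #{y : Fin 14 | f y = b} := by
  have e : univ.image (blk (Setoid.ker f))
      = (univ.image f).image fun b => univ.filter fun y => f y = b := by
    rw [image_image]
    congr 1
    ext x y
    simp [blk, Setoid.ker_def, eq_comm]
  rw [shape, e, image_val_of_injOn, Multiset.map_map]
  · rfl
  · intro b hb b' _ h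
    simp only [coe_image, coe_univ, Set.image_univ, Set.mem_range] at hb
    obtain ⟨x, rfl⟩ := hb
    have : x ∈ univ.filter fun y => f y = f x := by simp
    simp only at h
    rw [h] at this
    simpa using this

def lam : Nat.Partition 14 where
  parts := lamM
  parts_pos := by decide
  parts_sum := by decide

theorem bits_sum {k : ℕ} (b : Fin k → Fin 14) (hb : Function.Injective b) (s : Finset (Fin k))
    (x : ℕ) : (∑ t ∈ s, 2 ^ (b t : ℕ)).testBit x = true ↔ ∃ t ∈ s, (b t : ℕ) = x := by
  have : ∑ t ∈ s, 2 ^ (b t : ℕ) = ∑ y ∈ s.image (fun t => (b t : ℕ)), 2 ^ y := by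
    rw [sum_image]
    exact fun t _ t' _ h => hb (Fin.ext h)
  rw [this, ← Nat.mem_bitIndices, ← List.mem_toFinset, toFinset_bitIndices_sum_two_pow, mem_image]

theorem intv_mem (s : ℕ) (hs : s ∈ Wm) (m : ℕ)
    (hm : ∀ c, m.testBit c = true → s.testBit c = true) : intv m ∈ PiL lam := by
  refine ⟨{p | ∃ T ∈ Wm, (∀ c, m.testBit c = true → T.testBit c = true) ∧ p = intv T}, ?_, ?_⟩
  · rintro _ ⟨T, hT, _, rfl⟩
    rw [intv, shape_ker]
    exact (chkW T hT).2.2
  · refine le_antisymm ?_ (sSup_le ?_)
    swap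
    · rintro _ ⟨T, _, h, rfl⟩
      exact intv_le h
    set R := sSup {p | ∃ T ∈ Wm, (∀ c, m.testBit c = true → T.testBit c = true) ∧ p = intv T}
    have step : ∀ x (hx : x + 1 < 14), m.testBit (x + 1) = false →
        R ⟨x, by omega⟩ ⟨x + 1, hx⟩ := by
      intro x hx h
      obtain ⟨T, hT, h1, h2⟩ : ∃ T ∈ Wm, (∀ c, m.testBit c = true → T.testBit c = true) ∧
          T.testBit (x + 1) = false := by
        cases hsx : s.testBit (x + 1)
        · exact ⟨s, hs, hm, hsx⟩
        · obtain ⟨y, _, h1, h2, h3⟩ := chkG s hs (x + 1) hx hsx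
          refine ⟨_, (inW_iff _).mp h1, fun c hc => ?_, h2⟩
          have h4 := congrArg (fun z => Nat.testBit z c) h3
          have hne : x + 1 ≠ c := by rintro rfl; simp [h] at hc
          simpa [Nat.testBit_and, Nat.testBit_or, hm c hc, Nat.testBit_two_pow_of_ne hne] using h4
      have hle : intv T ≤ R := le_sSup ⟨T, hT, h1, rfl⟩
      apply hle
      rw [intv_iff]
      intro c hc
      have : c ≠ x + 1 := by rintro rfl; simp [h2] at hc
      simp only
      omega
    have all : ∀ d x (hx : x + d < 14), (∀ c, m.testBit c = true → (c ≤ x ↔ c ≤ x + d)) →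
        R ⟨x, by omega⟩ ⟨x + d, hx⟩ := by
      intro d
      induction d with
      | zero => intro x hx _; exact R.refl' _
      | succ d ih =>
        intro x hx h
        refine R.trans' (ih x (by omega) fun c hc => ?_) (step (x + d) hx ?_)
        · have := h c hc; omega
        · cases hc : m.testBit (x + d + 1)
          · rfl
          · have := h _ hc; omega
    intro x y hxy
    rw [intv_iff] at hxy
    rcases le_total (x : ℕ) y with h | h
    · obtain ⟨d, hd⟩ := Nat.exists_eq_add_of_le h
      have := all d x (by omega) (by rw [← hd]; exact hxy)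
      convert this
    · obtain ⟨d, hd⟩ := Nat.exists_eq_add_of_le h
      have := all d y (by omega) (by rw [← hd]; exact fun c hc => (hxy c hc).symm)
      refine R.symm' ?_
      convert this

theorem diffs (r : Setoid (Fin 14)) (hr : shape r = lamM) (B : Fin 8 → Finset (Fin 14))
    (hB : StrictMono B)
    (hc : ∀ i x y, r x y → x ∈ B i → y ∈ B i) :
    (univ.val.map fun j : Fin 7 => #(B j.succ) - #(B j.castSucc)) = lamM := by
  classical
  let D : Fin 7 → Finset (Fin 14) := fun j => B j.succ \ B j.castSucc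
  have hlt : ∀ j : Fin 7, B j.castSucc ⊂ B j.succ := fun j => hB (Fin.castSucc_lt_succ)
  have hne : ∀ j, ∃ x, x ∈ D j := fun j => by
    obtain ⟨x, h1, h2⟩ := exists_of_ssubset (hlt j)
    exact ⟨x, mem_sdiff.mpr ⟨h1, h2⟩⟩
  choose x hx using hne
  have huniq : ∀ i j y, y ∈ D i → y ∈ D j → i = j := by
    intro i j y hi hj
    rw [mem_sdiff] at hi hj
    by_contra hij
    rcases lt_or_gt_of_ne hij with h | h
    · exact hj.2 (hB.monotone (Fin.succ_le_castSucc_iff.mpr h) hi.1)
    · exact hi.2 (hB.monotone (Fin.succ_le_castSucc_iff.mpr h) hj.1)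
  have hself : ∀ y, y ∈ blk r y := fun y => by simp [blk]
  have hsub : ∀ j, blk r (x j) ⊆ D j := by
    intro j y hy
    have hy' : r (x j) y := by simpa [blk] using hy
    have := mem_sdiff.mp (hx j)
    exact mem_sdiff.mpr ⟨hc _ _ _ hy' this.1, fun h => this.2 (hc _ _ _ (r.symm' hy') h)⟩
  have hinj : Function.Injective fun j => blk r (x j) := by
    intro i j h
    simp only at h
    exact huniq i j (x j) (hsub i (by rw [h]; exact hself _)) (hx j)
  have hcard : #(univ.image (blk r)) = 7 := by
    have := congrArg Multiset.card hr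
    rw [shape, Multiset.card_map] at this
    exact this
  have heq : univ.image (fun j => blk r (x j)) = univ.image (blk r) := by
    refine eq_of_subset_of_card_le ?_ ?_
    · intro z hz
      obtain ⟨j, _, rfl⟩ := mem_image.mp hz
      exact mem_image_of_mem _ (mem_univ _)
    · rw [hcard, card_image_of_injective _ hinj]; simp
  have hD : ∀ j, D j = blk r (x j) := by
    intro j
    refine Subset.antisymm (fun y hy => ?_) (hsub j)
    have : blk r y ∈ univ.image (fun j => blk r (x j)) := by
      rw [heq]; exact mem_image_of_mem _ (mem_univ _)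
    obtain ⟨i, _, hi⟩ := mem_image.mp this
    have hyi : y ∈ blk r (x i) := by rw [hi]; exact hself y
    rw [huniq j i y hy (hsub i hyi)]
    exact hyi
  rw [← hr, shape, ← heq, image_val_of_injOn hinj.injOn, Multiset.map_map]
  refine Multiset.map_congr rfl fun j _ => ?_
  simp only [Function.comp, ← hD j, D]
  rw [card_sdiff_of_subset (hlt j).subset]

end Pool.Agent.H.MP_5a3b5e_co
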